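import Mathlib
import Pool.Agent.W926.PS.Stm
import Pool.Agent.W926.PS.Base

/-!
Project PS, part PS-UMIN: between equal positions there is a smaller one.
-/

namespace W137.PS

open W926.PS

theorem umin : S_UMIN := by
  intro r a y p hs i k hik hpk
  by_contra hcon
  push Not at hcon
  have key : ∀ n : ℕ, ∀ hn : n < 6, (i : ℕ) + 1 ≤ n → n ≤ k →
      y ⟨n, hn⟩ (p i).1 (p i).2 = true := by
    intro n
    induction n with
    | zero => intro hn h1 _; omega
    | succ n ih =>
      intro hn h1 h2
      rcases Nat.lt_or_ge (i : ℕ) n with hin | hin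
      · have hn5 : n < 5 := by omega
        have hprev := ih (by omega) (by omega) (by omega)
        set h : Fin 5 := ⟨n, hn5⟩ with hh
        have h3 : i < h := by simp [hh, Fin.lt_def]; exact hin
        have h4 : h < k := by simp [hh, Fin.lt_def]; omega
        have h5 := hcon h h3 h4
        have hsh := hs h
        have e1 : h.castSucc = (⟨n, by omega⟩ : Fin 6) := rfl
        have e2 : h.succ = (⟨n + 1, hn⟩ : Fin 6) := rfl
        rw [e1, e2] at hsh
        rcases Nat.lt_or_ge (nrk (p i)) (nrk (p h)) with h6 | h6
        · have hb : Before st0 (p i) (p h) := Or.inr ⟨rfl, h6⟩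
          rw [← hsh.1.1 _ hb]
          exact hprev
        · have h7 : p h = p i := nrk_inj (le_antisymm h6 h5)
          rw [← h7]
          exact hsh.2.2
      · have hni : n = (i : ℕ) := by omega
        subst hni
        exact (hs i).2.2
  have h8 := key k (by omega) (by rw [Fin.lt_def] at hik; omega) le_rfl
  have h9 := (hs k).2.1
  rw [← hpk] at h9
  have e3 : k.castSucc = (⟨(k : ℕ), by omega⟩ : Fin 6) := rfl
  rw [e3, h8] at h9
  exact absurd h9 (by decide)

end W137.PS
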